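import Pool.Agent.Helper65.JE.Defs

/-!
MP_ce5406_an, block T8: elementary facts about cube correlations and null functions.
-/

open MeasureTheory Filter Topology Finset
open scoped BigOperators ComplexConjugate

namespace Pool.Agent.JE

namespace T8

section
variable {X : Type} [MeasurableSpace X] {μ : Measure X}

lemma bdd_comp (A : Act X μ) {f : X → ℂ} (hf : Bdd f) (k : ℤ) : Bdd (fun x => f (A.S k x)) :=
  ⟨hf.meas.comp (A.mp k).measurable, fun _ => hf.le _⟩

lemma bdd_conj {f : X → ℂ} (hf : Bdd f) : Bdd (fun x => conj (f x)) :=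
  ⟨Complex.continuous_conj.measurable.comp hf.meas, fun x => by simpa using hf.le x⟩

lemma bdd_mul {f g : X → ℂ} (hf : Bdd f) (hg : Bdd g) : Bdd (fun x => f x * g x) :=
  ⟨hf.meas.mul hg.meas, fun x => by
    rw [norm_mul]
    exact mul_le_one₀ (hf.le x) (norm_nonneg _) (hg.le x)⟩

lemma bdd_Dl (A : Act X μ) {f : X → ℂ} (hf : Bdd f) (h : ℤ) : Bdd (Dl A h f) :=
  bdd_mul (bdd_comp A hf h) (bdd_conj hf)

lemma bdd_cub (A : Act X μ) (l : List ℤ) : ∀ {f : X → ℂ}, Bdd f → Bdd (cub A l f) := by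
  induction l with
  | nil => intro f hf; exact hf
  | cons h l ih => intro f hf; exact ih (bdd_Dl A hf h)

lemma cub_cons (A : Act X μ) (h : ℤ) (l : List ℤ) (f : X → ℂ) :
    cub A (h :: l) f = cub A l (Dl A h f) := rfl

lemma Cor_cons (A : Act X μ) (h : ℤ) (l : List ℤ) (f : X → ℂ) :
    Cor A (h :: l) f = Cor A l (Dl A h f) := rfl

/-- derivatives commute -/
lemma Dl_comm (A : Act X μ) (h k : ℤ) (f : X → ℂ) : Dl A h (Dl A k f) = Dl A k (Dl A h f) := by
  funext x
  simp only [Dl, map_mul, Complex.conj_conj]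
  rw [← A.add, ← A.add, add_comm k h]
  ring

lemma cub_Dl (A : Act X μ) (l : List ℤ) : ∀ (h : ℤ) (f : X → ℂ),
    cub A l (Dl A h f) = Dl A h (cub A l f) := by
  induction l with
  | nil => intro h f; rfl
  | cons k l ih =>
    intro h f
    rw [cub_cons, Dl_comm, ih, cub_cons]

lemma cub_comp (A : Act X μ) (l : List ℤ) : ∀ (k : ℤ) (f : X → ℂ),
    cub A l (fun x => f (A.S k x)) = fun x => cub A l f (A.S k x) := by
  induction l with
  | nil => intro k f; rfl
  | cons h l ih =>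
    intro k f
    rw [cub_cons, cub_cons, ← ih]
    congr 1
    funext x
    simp only [Dl]
    rw [← A.add, ← A.add, add_comm]

lemma cub_conj (A : Act X μ) (l : List ℤ) : ∀ (f : X → ℂ),
    cub A l (fun x => conj (f x)) = fun x => conj (cub A l f x) := by
  induction l with
  | nil => intro f; rfl
  | cons h l ih =>
    intro f
    rw [cub_cons, cub_cons, ← ih]
    congr 1
    funext x
    simp only [Dl, map_mul]

lemma integral_comp_S (A : Act X μ) {f : X → ℂ} (hf : Bdd f) (k : ℤ) :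
    ∫ x, f (A.S k x) ∂μ = ∫ x, f x ∂μ := by
  conv_rhs => rw [← (A.mp k).map_eq]
  rw [integral_map (A.mp k).measurable.aemeasurable hf.meas.aestronglyMeasurable]

end

section
variable {X : Type} [MeasurableSpace X] {μ : Measure X} [SFinite μ]

lemma cub_tens (A : Act X μ) (l : List ℤ) : ∀ (f : X → ℂ),
    cub A.prod l (tens f) = tens (cub A l f) := by
  induction l with
  | nil => intro f; rfl
  | cons h l ih =>
    intro f
    rw [cub_cons, cub_cons, ← ih]
    congr 1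
    funext x
    simp only [Dl, tens, Act.prod, map_mul, Complex.conj_conj]
    ring

lemma integral_tens (f : X → ℂ) :
    ∫ z, tens f z ∂(μ.prod μ) = (∫ x, f x ∂μ) * conj (∫ x, f x ∂μ) := by
  unfold tens
  rw [integral_prod_mul f (fun x => conj (f x)), integral_conj]

end

end T8

section
variable {X : Type} [MeasurableSpace X] {μ : Measure X} [IsProbabilityMeasure μ]

open T8

omit [IsProbabilityMeasure μ] in
/-- T8d -/
theorem cor_shift (A : Act X μ) (f : X → ℂ) (hf : Bdd f) (l : List ℤ) (k : ℤ) :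
    Cor A l (fun x => f (A.S k x)) = Cor A l f := by
  unfold Cor
  rw [cub_comp, integral_comp_S A (bdd_cub A l hf)]

omit [IsProbabilityMeasure μ] in
/-- T8e -/
theorem cor_conj (A : Act X μ) (f : X → ℂ) (hf : Bdd f) (l : List ℤ) :
    Cor A l (fun x => conj (f x)) = Cor A l f := by
  unfold Cor
  rw [cub_conj, integral_conj, RCLike.norm_conj]

/-- T8c -/
theorem cor_natAbs (A : Act X μ) (f : X → ℂ) (hf : Bdd f) (l : List ℤ) :
    Cor A (l.map (fun h => (h.natAbs : ℤ))) f = Cor A l f := by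
  induction l generalizing f with
  | nil => rfl
  | cons h l ih =>
    rw [List.map_cons, Cor_cons, Cor_cons, ih _ (bdd_Dl A hf _)]
    rcases Int.natAbs_eq h with h1 | h1
    · rw [← h1]
    · have h2 : Dl A (h.natAbs : ℤ) f = fun x => (fun y => conj (Dl A h f y))
          (A.S (h.natAbs : ℤ) x) := by
        funext x
        simp only [Dl, map_mul, Complex.conj_conj]
        rw [← A.add]
        have : h + (h.natAbs : ℤ) = 0 := by omega
        rw [this, A.zero]
        ring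
      rw [h2, cor_shift A _ (bdd_conj (bdd_Dl A hf _)), cor_conj A _ (bdd_Dl A hf _)]

/-- T8f -/
theorem cor_tens (A : Act X μ) (f : X → ℂ) (hf : Bdd f) (l : List ℤ) :
    Cor A.prod l (tens f) = (Cor A l f) ^ 2 := by
  unfold Cor
  rw [cub_tens, integral_tens, norm_mul, RCLike.norm_conj, pow_two]

end

namespace T8

section
variable {X : Type} [MeasurableSpace X] {μ : Measure X} [IsProbabilityMeasure μ]

lemma integrable_of_bdd {f : X → ℂ} (hf : Bdd f) : Integrable f μ :=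
  Integrable.of_bound hf.meas.aestronglyMeasurable 1 (Eventually.of_forall hf.le)

/-- A finite telescoping bound. -/
lemma shift_sum_bound (a : ℕ → ℂ) (ha : ∀ n, ‖a n‖ ≤ 1) (H k : ℕ) :
    ‖∑ h ∈ range H, a h - ∑ h ∈ range H, a (h + k)‖ ≤ 2 * k := by
  have h1 : ∑ h ∈ range (H + k), a h = ∑ h ∈ range H, a h + ∑ h ∈ range k, a (H + h) :=
    sum_range_add a H k
  have h2 : ∑ h ∈ range (k + H), a h = ∑ h ∈ range k, a h + ∑ h ∈ range H, a (k + h) :=
    sum_range_add a k H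
  have h3 : ∑ h ∈ range H, a h - ∑ h ∈ range H, a (h + k) =
      ∑ h ∈ range k, a h - ∑ h ∈ range k, a (H + h) := by
    have h4 : ∑ h ∈ range H, a (h + k) = ∑ h ∈ range H, a (k + h) :=
      sum_congr rfl (fun i _ => by rw [add_comm])
    rw [h4]
    rw [add_comm k H] at h2
    linear_combination h2 - h1
  rw [h3]
  have hb : ∀ b : ℕ → ℂ, (∀ n, ‖b n‖ ≤ 1) → ‖∑ h ∈ range k, b h‖ ≤ k := by
    intro b hb
    calc ‖∑ h ∈ range k, b h‖ ≤ ∑ h ∈ range k, ‖b h‖ := norm_sum_le _ _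
      _ ≤ ∑ h ∈ range k, (1 : ℝ) := sum_le_sum (fun i _ => hb i)
      _ = k := by simp
  calc ‖∑ h ∈ range k, a h - ∑ h ∈ range k, a (H + h)‖
      ≤ ‖∑ h ∈ range k, a h‖ + ‖∑ h ∈ range k, a (H + h)‖ := norm_sub_le _ _
    _ ≤ k + k := add_le_add (hb _ ha) (hb _ (fun n => ha _))
    _ = 2 * k := by ring

/-- van der Corput for self correlations of a bounded function. -/
lemma corr_bound (A : Act X μ) (U : X → ℂ) (hU : Bdd U) (H K : ℕ) (hK : 1 ≤ K) :
    K * ‖∑ h ∈ range H, ∫ x, Dl A (h : ℤ) U x ∂μ‖ ≤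
      H * Real.sqrt ‖∑ k ∈ range K, ∑ k' ∈ range K, ∫ x, Dl A ((k : ℤ) - (k' : ℤ)) U x ∂μ‖ + K ^ 2 := by
  classical
  set W : X → ℂ := fun x => ∑ k ∈ range K, U (A.S (k : ℤ) x) with hW
  have hUS : ∀ k : ℤ, Bdd (fun x => U (A.S k x)) := fun k => bdd_comp A hU k
  have hWm : Measurable W := by
    refine Finset.measurable_sum _ (fun k _ => (hUS k).meas)
  have hWb : ∀ x, ‖W x‖ ≤ K := by
    intro x
    calc ‖W x‖ ≤ ∑ k ∈ range K, ‖U (A.S (k : ℤ) x)‖ := norm_sum_le _ _
      _ ≤ ∑ k ∈ range K, (1 : ℝ) := sum_le_sum (fun i _ => hU.le _)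
      _ = K := by simp
  have hWi : Integrable W μ := Integrable.of_bound hWm.aestronglyMeasurable K
    (Eventually.of_forall hWb)
  -- step 3
  have h3 : ∫ x, ‖W x‖ ^ 2 ∂μ =
      ‖∑ k ∈ range K, ∑ k' ∈ range K, ∫ x, Dl A ((k : ℤ) - (k' : ℤ)) U x ∂μ‖ := by
    have e1 : ∀ k k' : ℕ, ∫ x, Dl A ((k : ℤ) - (k' : ℤ)) U x ∂μ =
        ∫ x, U (A.S k x) * conj (U (A.S k' x)) ∂μ := by
      intro k k'
      rw [← integral_comp_S A (bdd_Dl A hU _) (k' : ℤ)]
      congr 1
      funext x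
      simp only [Dl]
      rw [← A.add]
      congr 3
      ring_nf
    have e2 : ∑ k ∈ range K, ∑ k' ∈ range K, ∫ x, Dl A ((k : ℤ) - (k' : ℤ)) U x ∂μ =
        ∫ x, W x * conj (W x) ∂μ := by
      have e3 : ∀ x, W x * conj (W x) =
          ∑ k ∈ range K, ∑ k' ∈ range K, U (A.S k x) * conj (U (A.S k' x)) := by
        intro x
        simp only [hW, map_sum]
        rw [Finset.sum_mul_sum]
      simp_rw [e3, e1]
      rw [integral_finsetSum]
      · refine sum_congr rfl (fun k _ => ?_)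
        rw [integral_finsetSum]
        intro k' _
        exact integrable_of_bdd (bdd_mul (hUS k) (bdd_conj (hUS k')))
      · intro k _
        refine integrable_finsetSum _ (fun k' _ => ?_)
        exact integrable_of_bdd (bdd_mul (hUS k) (bdd_conj (hUS k')))
    rw [e2]
    have e4 : ∀ x, W x * conj (W x) = ((‖W x‖ ^ 2 : ℝ) : ℂ) := by
      intro x
      rw [RCLike.mul_conj]
      push_cast
      rfl
    simp_rw [e4]
    rw [integral_complex_ofReal, Complex.norm_real, Real.norm_of_nonneg]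
    exact integral_nonneg (fun x => by positivity)
  rw [← h3]
  -- Cauchy-Schwarz
  have hWn : Integrable (fun x => ‖W x‖) μ := hWi.norm
  have hWn2 : Integrable (fun x => ‖W x‖ ^ 2) μ := by
    refine Integrable.of_bound (hWm.norm.pow_const 2).aestronglyMeasurable ((K : ℝ) ^ 2)
      (Eventually.of_forall (fun x => ?_))
    rw [Real.norm_of_nonneg (by positivity)]
    exact pow_le_pow_left₀ (norm_nonneg _) (hWb x) 2
  have hCS : ∫ x, ‖W x‖ ∂μ ≤ Real.sqrt (∫ x, ‖W x‖ ^ 2 ∂μ) := by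
    apply Real.le_sqrt_of_sq_le
    set m := ∫ x, ‖W x‖ ∂μ with hm
    have h0 : 0 ≤ ∫ x, (‖W x‖ - m) ^ 2 ∂μ := integral_nonneg (fun x => by positivity)
    have h1 : ∫ x, (‖W x‖ - m) ^ 2 ∂μ = ∫ x, ‖W x‖ ^ 2 ∂μ - m ^ 2 := by
      have : ∀ x, (‖W x‖ - m) ^ 2 = ‖W x‖ ^ 2 - (2 * m) * ‖W x‖ + m ^ 2 := fun x => by ring
      simp_rw [this]
      have i1 : Integrable (fun x => ‖W x‖ ^ 2 - 2 * m * ‖W x‖) μ := hWn2.sub (hWn.const_mul _)
      rw [integral_add i1 (integrable_const _),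
        integral_sub hWn2 (hWn.const_mul _), integral_const_mul, ← hm]
      simp
      ring
    linarith
  -- step 1
  have h1 : ∀ x, ‖(K : ℂ) * ∑ h ∈ range H, U (A.S h x) - ∑ h ∈ range H, W (A.S h x)‖ ≤ (K : ℝ) ^ 2 := by
    intro x
    have e1 : ∑ h ∈ range H, W (A.S h x) =
        ∑ k ∈ range K, ∑ h ∈ range H, U (A.S ((h + k : ℕ) : ℤ) x) := by
      simp only [hW]
      rw [Finset.sum_comm]
      refine sum_congr rfl (fun k _ => sum_congr rfl (fun h _ => ?_))
      rw [← A.add]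
      push_cast
      rw [add_comm]
    have e2 : (K : ℂ) * ∑ h ∈ range H, U (A.S h x) =
        ∑ _k ∈ range K, ∑ h ∈ range H, U (A.S h x) := by
      rw [sum_const, card_range, nsmul_eq_mul]
    rw [e1, e2, ← Finset.sum_sub_distrib]
    calc ‖∑ k ∈ range K, (∑ h ∈ range H, U (A.S (h : ℤ) x) -
          ∑ h ∈ range H, U (A.S ((h + k : ℕ) : ℤ) x))‖
        ≤ ∑ k ∈ range K, ‖∑ h ∈ range H, U (A.S (h : ℤ) x) -
          ∑ h ∈ range H, U (A.S ((h + k : ℕ) : ℤ) x)‖ := norm_sum_le _ _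
      _ ≤ ∑ k ∈ range K, (2 * k : ℝ) :=
          sum_le_sum (fun k _ => shift_sum_bound (fun n : ℕ => U (A.S (n : ℤ) x)) (fun n => hU.le _) H k)
      _ ≤ (K : ℝ) ^ 2 := by
          rw [← Finset.mul_sum]
          have : (∑ i ∈ range K, (i : ℝ)) * 2 = K * (K - 1) := by
            have := Finset.sum_range_id_mul_two K
            have h : ((∑ i ∈ range K, i) * 2 : ℕ) = ((K * (K - 1) : ℕ)) := this
            have h' : (((∑ i ∈ range K, i) * 2 : ℕ) : ℝ) = ((K * (K - 1) : ℕ) : ℝ) := by rw [h]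
            push_cast [Nat.cast_sub hK] at h'
            exact h'
          nlinarith [Nat.cast_nonneg (α := ℝ) K]
  -- step 2
  have hWS : ∀ h : ℤ, Integrable (fun x => W (A.S h x) * conj (U x)) μ := by
    intro h
    refine Integrable.of_bound ((hWm.comp (A.mp h).measurable).mul
      (bdd_conj hU).meas).aestronglyMeasurable (K : ℝ) (Eventually.of_forall (fun x => ?_))
    rw [norm_mul]
    calc ‖(W ∘ A.S h) x‖ * ‖conj (U x)‖ ≤ K * 1 :=
          mul_le_mul (hWb _) ((bdd_conj hU).le x) (norm_nonneg _) (Nat.cast_nonneg _)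
      _ = K := mul_one _
  have hUSi : ∀ h : ℤ, Integrable (fun x => U (A.S h x) * conj (U x)) μ := fun h =>
    integrable_of_bdd (bdd_mul (hUS h) (bdd_conj hU))
  have h2 : (K : ℂ) * ∑ h ∈ range H, ∫ x, Dl A (h : ℤ) U x ∂μ =
      (∑ h ∈ range H, ∫ x, W (A.S h x) * conj (U x) ∂μ) +
      ∫ x, ((K : ℂ) * ∑ h ∈ range H, U (A.S h x) - ∑ h ∈ range H, W (A.S h x)) * conj (U x) ∂μ := by
    have e1 : ∀ x, ((K : ℂ) * ∑ h ∈ range H, U (A.S h x) - ∑ h ∈ range H, W (A.S h x)) * conj (U x) =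
      (K : ℂ) * ∑ h ∈ range H, (U (A.S h x) * conj (U x)) -
        ∑ h ∈ range H, (W (A.S h x) * conj (U x)) := by
      intro x
      rw [← Finset.sum_mul, ← Finset.sum_mul]
      ring
    simp_rw [e1]
    rw [integral_sub, integral_const_mul, integral_finsetSum, integral_finsetSum]
    · simp only [Dl]
      ring
    · intro h _
      exact hWS h
    · intro h _
      exact hUSi h
    · have i2 : Integrable (fun x => ∑ h ∈ range H, (U (A.S h x) * conj (U x))) μ :=
        integrable_finsetSum _ (fun h _ => hUSi h)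
      exact i2.const_mul _
    · exact integrable_finsetSum _ (fun h _ => hWS h)
  have h4 : (K : ℝ) * ‖∑ h ∈ range H, ∫ x, Dl A (h : ℤ) U x ∂μ‖ =
      ‖(K : ℂ) * ∑ h ∈ range H, ∫ x, Dl A (h : ℤ) U x ∂μ‖ := by
    rw [norm_mul, Complex.norm_natCast]
  rw [h4, h2]
  refine (norm_add_le _ _).trans (add_le_add ?_ ?_)
  · calc ‖∑ h ∈ range H, ∫ x, W (A.S h x) * conj (U x) ∂μ‖
        ≤ ∑ h ∈ range H, ‖∫ x, W (A.S h x) * conj (U x) ∂μ‖ := norm_sum_le _ _
      _ ≤ ∑ h ∈ range H, ∫ x, ‖W x‖ ∂μ := by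
          refine sum_le_sum (fun h _ => ?_)
          have e5 : ∫ x, ‖W x‖ ∂μ = ∫ x, ‖W (A.S h x)‖ ∂μ := by
            conv_lhs => rw [← (A.mp h).map_eq]
            rw [integral_map (A.mp h).measurable.aemeasurable hWm.norm.aestronglyMeasurable]
          rw [e5]
          refine (norm_integral_le_integral_norm _).trans ?_
          refine integral_mono (hWS h).norm ?_ (fun x => ?_)
          · refine Integrable.of_bound (hWm.norm.comp (A.mp h).measurable).aestronglyMeasurable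
              (K : ℝ) (Eventually.of_forall (fun x => ?_))
            rw [Real.norm_of_nonneg (norm_nonneg _)]
            exact hWb _
          · simp only [norm_mul]
            calc ‖W (A.S h x)‖ * ‖conj (U x)‖ ≤ ‖W (A.S h x)‖ * 1 :=
                mul_le_mul_of_nonneg_left ((bdd_conj hU).le x) (norm_nonneg _)
              _ = ‖W (A.S h x)‖ := mul_one _
      _ = H * ∫ x, ‖W x‖ ∂μ := by simp
      _ ≤ H * Real.sqrt (∫ x, ‖W x‖ ^ 2 ∂μ) :=
          mul_le_mul_of_nonneg_left hCS (Nat.cast_nonneg _)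
  · refine (norm_integral_le_of_norm_le_const (C := (K : ℝ) ^ 2)
      (Eventually.of_forall (fun x => ?_))).trans ?_
    · rw [norm_mul]
      calc _ ≤ (K : ℝ) ^ 2 * 1 := mul_le_mul (h1 x) ((bdd_conj hU).le x) (norm_nonneg _) (by positivity)
        _ = _ := mul_one _
    · simp

lemma sum_natAbs_le (K : ℕ) (b : ℕ → ℝ) (hb : ∀ d, 0 ≤ b d) (k : ℕ) (hk : k < K) :
    ∑ k' ∈ range K, b ((k : ℤ) - (k' : ℤ)).natAbs ≤ 2 * ∑ d ∈ range K, b d := by
  have hmap : ∀ k' ∈ range K, ((k : ℤ) - (k' : ℤ)).natAbs ∈ range K := by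
    intro k' hk'
    rw [mem_range] at *
    omega
  rw [← Finset.sum_fiberwise_of_maps_to hmap, Finset.mul_sum]
  refine sum_le_sum (fun d _ => ?_)
  have h1 : ∀ i ∈ (range K).filter (fun k' : ℕ => ((k : ℤ) - (k' : ℤ)).natAbs = d),
      b ((k : ℤ) - (i : ℤ)).natAbs = b d := by
    intro i hi
    rw [mem_filter] at hi
    rw [hi.2]
  rw [sum_congr rfl h1, sum_const, nsmul_eq_mul]
  refine mul_le_mul_of_nonneg_right ?_ (hb d)
  have h2 : (range K).filter (fun k' : ℕ => ((k : ℤ) - (k' : ℤ)).natAbs = d) ⊆ {k - d, k + d} := by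
    intro i hi
    rw [mem_filter, mem_range] at hi
    rw [mem_insert, mem_singleton]
    omega
  calc ((((range K).filter (fun k' : ℕ => ((k : ℤ) - (k' : ℤ)).natAbs = d)).card : ℕ) : ℝ)
      ≤ ((({k - d, k + d} : Finset ℕ).card : ℕ) : ℝ) := by exact_mod_cast card_le_card h2
    _ ≤ ((2 : ℕ) : ℝ) := by exact_mod_cast card_le_two
    _ = 2 := by norm_num

/-- The square of the correlation, as a function of the edge. -/
lemma integral_Dl_tens (A : Act X μ) (u : X → ℂ) (h : ℤ) :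
    ∫ z, Dl A.prod h (tens u) z ∂(μ.prod μ) = (((Cor A [h] u) ^ 2 : ℝ) : ℂ) := by
  have h1 : Dl A.prod h (tens u) = tens (Dl A h u) := cub_tens A [h] u
  rw [h1, integral_tens, RCLike.mul_conj]
  simp [Cor, cub]

lemma bdd_tens {u : X → ℂ} (hu : Bdd u) : Bdd (tens u) :=
  ⟨(hu.meas.comp measurable_fst).mul
    ((Complex.continuous_conj.measurable.comp hu.meas).comp measurable_snd), fun z => by
      unfold tens
      rw [norm_mul, RCLike.norm_conj]
      exact mul_le_one₀ (hu.le _) (norm_nonneg _) (hu.le _)⟩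

lemma cor_sq_bound (A : Act X μ) (u : X → ℂ) (hu : Bdd u) (H K : ℕ) (hK : 1 ≤ K) :
    K * ∑ h ∈ range H, (Cor A [(h : ℤ)] u) ^ 2 ≤
      H * Real.sqrt (2 * K * ∑ h ∈ range K, (Cor A [(h : ℤ)] u) ^ 2) + K ^ 2 := by
  have h := corr_bound A.prod (tens u) (bdd_tens hu) H K hK
  simp_rw [integral_Dl_tens] at h
  rw [← Complex.ofReal_sum, Complex.norm_real, Real.norm_of_nonneg
    (sum_nonneg (fun _ _ => by positivity))] at h
  refine h.trans ?_
  gcongr
  simp_rw [← Complex.ofReal_sum]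
  rw [Complex.norm_real, Real.norm_of_nonneg
    (sum_nonneg (fun _ _ => sum_nonneg (fun _ _ => by positivity)))]
  have h1 : ∀ k ∈ range K, ∑ k' ∈ range K, (Cor A [(k : ℤ) - (k' : ℤ)] u) ^ 2 ≤
      2 * ∑ d ∈ range K, (Cor A [(d : ℤ)] u) ^ 2 := by
    intro k hk
    have h2 := sum_natAbs_le K (fun d => (Cor A [(d : ℤ)] u) ^ 2) (fun d => by positivity) k
      (mem_range.1 hk)
    have h3 : ∀ m : ℤ, Cor A [(m.natAbs : ℤ)] u = Cor A [m] u := fun m => cor_natAbs A u hu [m]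
    simp_rw [h3] at h2
    exact h2
  calc ∑ k ∈ range K, ∑ k' ∈ range K, (Cor A [(k : ℤ) - (k' : ℤ)] u) ^ 2
      ≤ ∑ k ∈ range K, 2 * ∑ d ∈ range K, (Cor A [(d : ℤ)] u) ^ 2 := sum_le_sum h1
    _ = 2 * K * ∑ d ∈ range K, (Cor A [(d : ℤ)] u) ^ 2 := by
        rw [sum_const, card_range, nsmul_eq_mul]; ring

/-- The linearised key inequality. -/
lemma key (A : Act X μ) (u : X → ℂ) (hu : Bdd u) (c : ℝ) (hc : 0 < c) (H K : ℕ) (hK : 1 ≤ K)
    (hH : 1 ≤ H) (hKH : (K : ℝ) ≤ c / 4 * H) :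
    ∑ h ∈ range H, (Cor A [(h : ℤ)] u) ^ 2 ≤
      H * (c / 2 + 2 / c * ((∑ h ∈ range K, (Cor A [(h : ℤ)] u) ^ 2) / K)) := by
  have h := cor_sq_bound A u hu H K hK
  set s := (∑ h ∈ range K, (Cor A [(h : ℤ)] u) ^ 2) / K with hs
  have hKp : (0 : ℝ) < K := by exact_mod_cast hK
  have hHp : (0 : ℝ) < H := by exact_mod_cast hH
  have hs0 : 0 ≤ s := div_nonneg (sum_nonneg (fun _ _ => by positivity)) hKp.le
  have hs' : ∑ h ∈ range K, (Cor A [(h : ℤ)] u) ^ 2 = K * s := by
    rw [hs]; field_simp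
  rw [hs'] at h
  have h1 : Real.sqrt (2 * K * (K * s)) ≤ K * (c / 4 + 2 / c * s) := by
    apply Real.sqrt_le_iff.2
    constructor
    · positivity
    · have : 2 * s ≤ (c / 4 + 2 / c * s) ^ 2 := by
        have h2 : (c / 4 + 2 / c * s) ^ 2 - 2 * s = (c / 4 - 2 / c * s) ^ 2 := by
          field_simp
          ring
        nlinarith [sq_nonneg (c / 4 - 2 / c * s)]
      calc 2 * (K : ℝ) * (K * s) = (K : ℝ) ^ 2 * (2 * s) := by ring
        _ ≤ (K : ℝ) ^ 2 * (c / 4 + 2 / c * s) ^ 2 := by gcongr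
        _ = _ := by ring
  have h2 : (K : ℝ) * ∑ h ∈ range H, (Cor A [(h : ℤ)] u) ^ 2 ≤
      K * (H * (c / 2 + 2 / c * s)) := by
    calc _ ≤ H * Real.sqrt (2 * K * (K * s)) + K ^ 2 := h
      _ ≤ H * (K * (c / 4 + 2 / c * s)) + K * (c / 4 * H) := by
          gcongr
          nlinarith
      _ = _ := by ring
  exact le_of_mul_le_mul_left h2 hKp

end

/-! ### averages with different lengths -/

noncomputable def avl : List ℕ → (List ℕ → ℝ) → ℝ
  | [], G => G []
  | K :: Ks, G => (∑ h ∈ range K, avl Ks (fun l => G (h :: l))) / K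

lemma avl_replicate (s K : ℕ) : ∀ G : List ℕ → ℝ, avl (List.replicate s K) G = av s K G := by
  induction s with
  | zero => intro G; rfl
  | succ s ih =>
    intro G
    simp only [List.replicate_succ, avl, av, ih]

lemma avl_replicate_append (s K H : ℕ) : ∀ G : List ℕ → ℝ,
    avl (List.replicate s K ++ [H]) G = av s K (fun l => ravg H (fun h => G (l ++ [h]))) := by
  induction s with
  | zero => intro G; rfl
  | succ s ih =>
    intro G
    simp only [List.replicate_succ, List.cons_append, avl, av, ih]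

lemma avl_mono (Ks : List ℕ) : ∀ {G G' : List ℕ → ℝ}, (∀ l, G l ≤ G' l) → avl Ks G ≤ avl Ks G' := by
  induction Ks with
  | nil => intro G G' h; exact h _
  | cons K Ks ih =>
    intro G G' hG
    simp only [avl]
    refine div_le_div_of_nonneg_right (sum_le_sum (fun i _ => ih (fun l => hG _)))
      (Nat.cast_nonneg _)

lemma avl_const (Ks : List ℕ) (hK : ∀ K ∈ Ks, 1 ≤ K) (c : ℝ) : avl Ks (fun _ => c) = c := by
  induction Ks with
  | nil => rfl
  | cons K Ks ih =>
    have h1 : (0 : ℝ) < K := by exact_mod_cast hK K (List.mem_cons_self)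
    simp only [avl]
    rw [ih (fun K' h => hK K' (List.mem_cons_of_mem _ h)), sum_const, card_range, nsmul_eq_mul]
    field_simp

lemma avl_add (Ks : List ℕ) : ∀ (G G' : List ℕ → ℝ),
    avl Ks (fun l => G l + G' l) = avl Ks G + avl Ks G' := by
  induction Ks with
  | nil => intro G G'; rfl
  | cons K Ks ih =>
    intro G G'
    simp only [avl]
    rw [← add_div, ← sum_add_distrib]
    simp_rw [← ih]

lemma avl_mul (Ks : List ℕ) (c : ℝ) : ∀ (G : List ℕ → ℝ),
    avl Ks (fun l => c * G l) = c * avl Ks G := by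
  induction Ks with
  | nil => intro G; rfl
  | cons K Ks ih =>
    intro G
    simp only [avl]
    simp_rw [ih]
    rw [← mul_sum, mul_div_assoc]

lemma avl_sum {ι : Type} (Ks : List ℕ) (T : Finset ι) : ∀ (G : ι → List ℕ → ℝ),
    avl Ks (fun l => ∑ i ∈ T, G i l) = ∑ i ∈ T, avl Ks (G i) := by
  induction Ks with
  | nil => intro G; rfl
  | cons K Ks ih =>
    intro G
    simp only [avl]
    simp_rw [ih]
    rw [← Finset.sum_div, Finset.sum_comm]

lemma avl_div (Ks : List ℕ) (c : ℝ) (G : List ℕ → ℝ) :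
    avl Ks (fun l => G l / c) = avl Ks G / c := by
  simp_rw [div_eq_inv_mul]
  exact avl_mul Ks _ G

section
variable {X : Type} [MeasurableSpace X] {μ : Measure X} [IsProbabilityMeasure μ]

/-- shorthand: the squared correlation with natural edges -/
noncomputable def cs (A : Act X μ) (u : X → ℂ) (l : List ℕ) : ℝ :=
  (Cor A (l.map (fun h : ℕ => (h : ℤ))) u) ^ 2

lemma cs_cons (A : Act X μ) (u : X → ℂ) (h : ℕ) (l : List ℕ) :
    cs A u (h :: l) = cs A (Dl A (h : ℤ) u) l := rfl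

lemma cs_cons' (A : Act X μ) (u : X → ℂ) (h : ℕ) (l : List ℕ) :
    cs A u (h :: l) = (Cor A [(h : ℤ)] (cub A (l.map (fun h : ℕ => (h : ℤ))) u)) ^ 2 := by
  unfold cs Cor
  rw [List.map_cons, cub_cons, cub_Dl]
  rfl

lemma main (A : Act X μ) (s : ℕ) : ∀ c : ℝ, 0 < c → ∃ c' : ℝ, 0 < c' ∧
    ∀ Ks : List ℕ, Ks.length = s → (∀ K ∈ Ks, 1 ≤ K) → ∃ H₀ : ℕ, ∀ H ≥ H₀, 1 ≤ H →
    ∀ (ι : Type) (T : Finset ι) (u : ι → X → ℂ), (∀ i, Bdd (u i)) →
    c * T.card ≤ ∑ i ∈ T, av s H (cs A (u i)) → c' * T.card ≤ ∑ i ∈ T, avl Ks (cs A (u i)) := by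
  induction s with
  | zero =>
    intro c hc
    refine ⟨c, hc, fun Ks hKs _ => ⟨0, fun H _ _ ι T u _ h => ?_⟩⟩
    rw [List.length_eq_zero_iff] at hKs
    subst hKs
    exact h
  | succ s ih =>
    intro c hc
    obtain ⟨c₁, hc₁, ih⟩ := ih c hc
    refine ⟨c₁ ^ 2 / 4, by positivity, fun Ks hKs hK1 => ?_⟩
    obtain ⟨K, Ks, rfl⟩ : ∃ K Ks', Ks = K :: Ks' := by
      cases Ks with
      | nil => simp at hKs
      | cons K Ks' => exact ⟨K, Ks', rfl⟩
    have hKs' : Ks.length = s := by simpa using hKs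
    have hK : 1 ≤ K := hK1 K List.mem_cons_self
    have hK1' : ∀ K' ∈ Ks, 1 ≤ K' := fun K' h => hK1 K' (List.mem_cons_of_mem _ h)
    obtain ⟨H₁, hH₁⟩ := ih Ks hKs' hK1'
    refine ⟨max H₁ ⌈4 * K / c₁⌉₊, fun H hH hH1 ι T u hu h => ?_⟩
    have hHp : (0 : ℝ) < H := by exact_mod_cast hH1
    have hKp : (0 : ℝ) < K := by exact_mod_cast hK
    have hKH : (K : ℝ) ≤ c₁ / 4 * H := by
      have h1 : 4 * K / c₁ ≤ (H : ℝ) :=
        (Nat.le_ceil _).trans (by exact_mod_cast (le_max_right _ _).trans hH)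
      rw [div_le_iff₀ hc₁] at h1
      linarith
    -- apply the induction hypothesis to the derivatives
    have h1 : c * ((T ×ˢ range H).card : ℝ) ≤ ∑ p ∈ T ×ˢ range H,
        av s H (cs A (Dl A (p.2 : ℤ) (u p.1))) := by
      rw [card_product, card_range, Finset.sum_product]
      have h2 : ∑ i ∈ T, av (s + 1) H (cs A (u i)) =
          (∑ i ∈ T, ∑ h ∈ range H, av s H (cs A (Dl A (h : ℤ) (u i)))) / H := by
        rw [Finset.sum_div]
        rfl
      rw [h2, le_div_iff₀ hHp] at h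
      push_cast
      linarith
    have h2 := hH₁ H ((le_max_left _ _).trans hH) hH1 (ι × ℕ) (T ×ˢ range H)
      (fun p => Dl A (p.2 : ℤ) (u p.1)) (fun p => bdd_Dl A (hu _) _) h1
    rw [card_product, card_range, Finset.sum_product] at h2
    have h3 : ∀ i, ∑ h ∈ range H, avl Ks (cs A (Dl A (h : ℤ) (u i))) ≤
        H * (c₁ / 2 + 2 / c₁ * avl (K :: Ks) (cs A (u i))) := by
      intro i
      rw [← avl_sum]
      have h4 : ∀ l : List ℕ, ∑ h ∈ range H, cs A (Dl A (h : ℤ) (u i)) l ≤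
          H * (c₁ / 2 + 2 / c₁ * ((∑ h ∈ range K, cs A (Dl A (h : ℤ) (u i)) l) / K)) := by
        intro l
        simp_rw [← cs_cons, cs_cons']
        exact key A _ (bdd_cub A _ (hu i)) c₁ hc₁ H K hK hH1 hKH
      refine (avl_mono Ks h4).trans (le_of_eq ?_)
      rw [avl_mul, avl_add, avl_const Ks hK1', avl_mul, avl_div, avl_sum]
      rfl
    have h5 : c₁ * ((T.card * H : ℕ) : ℝ) ≤
        ∑ i ∈ T, H * (c₁ / 2 + 2 / c₁ * avl (K :: Ks) (cs A (u i))) :=
      h2.trans (sum_le_sum (fun i _ => h3 i))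
    rw [← Finset.mul_sum, Finset.sum_add_distrib, sum_const, nsmul_eq_mul, ← Finset.mul_sum] at h5
    set Sg := ∑ i ∈ T, avl (K :: Ks) (cs A (u i)) with hSg
    push_cast at h5
    have h6 : c₁ * (T.card : ℝ) ≤ T.card * (c₁ / 2) + 2 / c₁ * Sg := by
      have : (H : ℝ) * (c₁ * T.card) ≤ H * (T.card * (c₁ / 2) + 2 / c₁ * Sg) := by linarith
      exact le_of_mul_le_mul_left this hHp
    have h7 : c₁ / 2 * (T.card : ℝ) ≤ 2 / c₁ * Sg := by linarith
    have h8 : c₁ / 2 * (c₁ / 2 * (T.card : ℝ)) ≤ c₁ / 2 * (2 / c₁ * Sg) :=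
      mul_le_mul_of_nonneg_left h7 (by positivity)
    have h9 : c₁ / 2 * (2 / c₁ * Sg) = Sg := by field_simp
    rw [h9] at h8
    linarith [h8]

lemma nonnull (A : Act X μ) (f : X → ℂ) (hf : Bdd f) (s : ℕ) (h : ¬ Null A s f) :
    ∃ c > 0, ∀ Ks : List ℕ, Ks.length = s → (∀ K ∈ Ks, 1 ≤ K) → c ≤ avl Ks (cs A f) := by
  have hnn : ∀ K, 0 ≤ av s K (cs A f) := by
    intro K
    rw [← avl_replicate]
    have h0 := avl_mono (List.replicate s K) (G := fun _ => (0 : ℝ) * 0) (G' := cs A f)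
      (fun l => by
        rw [zero_mul]
        exact sq_nonneg _)
    rw [avl_mul, zero_mul] at h0
    exact h0
  have h1 : ∃ c > 0, ∃ᶠ K : ℕ in atTop, c ≤ av s K (cs A f) := by
    by_contra hcon
    push Not at hcon
    apply h
    change Tendsto (fun K : ℕ => av s K (cs A f)) atTop (𝓝 0)
    rw [Metric.tendsto_nhds]
    intro ε hε
    filter_upwards [hcon ε hε] with K hK
    rw [Real.dist_eq, sub_zero, abs_of_nonneg (hnn K)]
    exact hK
  obtain ⟨c, hc, hfr⟩ := h1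
  obtain ⟨c', hc', hmain⟩ := main A s c hc
  refine ⟨c', hc', fun Ks hKs hK1 => ?_⟩
  obtain ⟨H₀, hH₀⟩ := hmain Ks hKs hK1
  obtain ⟨H, hH, hHc⟩ := (frequently_atTop.1 hfr) (max H₀ 1)
  have := hH₀ H ((le_max_left _ _).trans hH) ((le_max_right _ _).trans hH) Unit {()}
    (fun _ => f) (fun _ => hf) (by simpa using hHc)
  simpa using this

end

end T8

section
variable {X : Type} [MeasurableSpace X] {μ : Measure X} [IsProbabilityMeasure μ]

open T8

/-- T8a -/
theorem nonnull_all (A : Act X μ) (f : X → ℂ) (hf : Bdd f) (s : ℕ) (h : ¬ Null A s f) :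
    ∃ c > 0, ∀ K ≥ 1, c ≤ av s K (fun l => (Cor A (l.map (fun h : ℕ => (h : ℤ))) f) ^ 2) := by
  obtain ⟨c, hc, h⟩ := nonnull A f hf s h
  refine ⟨c, hc, fun K hK => ?_⟩
  have := h (List.replicate s K) (by simp) (by
    intro K' hK'
    rw [List.eq_of_mem_replicate hK']
    exact hK)
  rw [avl_replicate] at this
  exact this

/-- T8b -/
theorem nonnull_split (A : Act X μ) (f : X → ℂ) (hf : Bdd f) (s : ℕ) (h : ¬ Null A (s + 1) f) :
    ∃ c > 0, ∀ K ≥ 1, ∀ H ≥ 1, c ≤ av s K (fun l => ravg H (fun h =>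
      (Cor A (l.map (fun h : ℕ => (h : ℤ)) ++ [(h : ℤ)]) f) ^ 2)) := by
  obtain ⟨c, hc, h⟩ := nonnull A f hf (s + 1) h
  refine ⟨c, hc, fun K hK H hH => ?_⟩
  have := h (List.replicate s K ++ [H]) (by simp) (by
    intro K' hK'
    rw [List.mem_append, List.mem_singleton] at hK'
    rcases hK' with hK' | rfl
    · rw [List.eq_of_mem_replicate hK']
      exact hK
    · exact hH)
  rw [avl_replicate_append] at this
  simp only [cs, List.map_append, List.map_cons, List.map_nil] at this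
  exact this

end

end Pool.Agent.JE
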